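import Pool.Agent.Work.MP_03d2dd_co.NL.Final
import Pool.Agent.Work.MP_03d2dd_co.NL.GadG

/-! The spectrum of `h`-homogeneous latin squares for all orders almost linear in `h`. -/

namespace Pool.Agent.Results.MP_03d2dd_co.NearLinear

open Pool.Agent.Work.MP_03d2dd_co

theorem result (ε : ℝ) (hε : 0 < ε) : ∃ C : ℝ, ∀ h n : ℕ, C * ((h : ℝ) + 1) ^ (1 + ε) ≤ n →
    ((∃ L : Fin n → Fin n → Fin n, IsLatin L ∧ IsHomogeneous L h) ↔ (Even n ∨ 4 ∣ h)) :=
  Pool.Agent.NL.near_real (Pool.Agent.NL.near_nat Pool.Agent.NL.gad1 Pool.Agent.NL.gad2) ε hε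

end Pool.Agent.Results.MP_03d2dd_co.NearLinear
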