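import Pool.Agent.Work.MP_03d2dd_co.Main

/-! The spectrum of `h`-homogeneous latin squares in the range `h + 1 ≥ 7 n / 8`. -/

namespace Pool.Agent.Results.MP_03d2dd_co.TopEighth

open Pool.Agent.Work.MP_03d2dd_co

theorem result (n h : ℕ) (hn : 1 ≤ n) (hh : 7 * n ≤ 8 * (h + 1)) :
    (∃ L : Fin n → Fin n → Fin n, IsLatin L ∧ IsHomogeneous L h) ↔
      ∃ k, n = 2 ^ k ∧ (h + 1 = n ∨ (4 ≤ k ∧ 8 * (h + 1) = 7 * n)) := by
  constructor
  · rintro ⟨L, hL, hH⟩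
    have := necessary hL hH ⟨0, hn⟩ (by simpa using hh)
    simpa using this
  · rintro ⟨k, rfl, h1 | ⟨h1, h2⟩⟩
    · exact Ex.toFin (h1 ▸ ex_pow k)
    · obtain ⟨j, rfl⟩ := Nat.exists_eq_add_of_le h1
      have h3 := ex_sixteen.mul (ex_pow j)
      have h4 : h + 1 = 14 * 2 ^ j := by
        rw [pow_add] at h2
        omega
      rw [← h4, show 16 * 2 ^ j = 2 ^ (4 + j) by rw [pow_add]; norm_num] at h3
      exact Ex.toFin h3

end Pool.Agent.Results.MP_03d2dd_co.TopEighth
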